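import Pool.Agent.UMG.StmtsB

/-!
Row BLK: the standard map of a list with equal entries in front.
-/

set_option autoImplicit false

namespace Pool.Agent.UMG.B.H21

open Finset Pool.Agent.UMG Pool.Agent.UMG.B

/-- `none` in front -/
def E0 (m : ℕ) : Unit ⊕ Fin m ≃ Fin (m + 1) where
  toFun x := match x with
    | Sum.inl _ => 0
    | Sum.inr i => i.succ
  invFun y := Fin.cases (Sum.inl ()) (fun i => Sum.inr i) y
  left_inv x := by
    rcases x with _ | i
    · rfl
    · rfl
  right_inv y := by
    refine Fin.cases ?_ (fun j => ?_) y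
    · rfl
    · rfl

/-- one more block -/
def F0 (m k : ℕ) : Fin k ⊕ (Fin m × Fin k) ≃ Fin (m + 1) × Fin k where
  toFun x := match x with
    | Sum.inl a => (0, a)
    | Sum.inr p => (p.1.succ, p.2)
  invFun y := Fin.cases (Sum.inl y.2) (fun i => Sum.inr (i, y.2)) y.1
  left_inv x := by
    rcases x with a | ⟨i, a⟩
    · rfl
    · rfl
  right_inv y := by
    obtain ⟨i, a⟩ := y
    refine Fin.cases ?_ (fun j => ?_) i
    · rfl
    · rfl

theorem blk1 (k : ℕ) (t : List ℕ) (m : ℕ) : MI (nus (List.replicate m k ++ t))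
    (Sum.map (Prod.fst : Fin m × Fin k → Fin m) (nus t)) := by
  induction m with
  | zero =>
    exact ⟨(Equiv.emptySum (Fin 0) (Vs t)).symm, (Equiv.emptySum (Fin 0 × Fin k) (Hs t)).symm,
      fun h => rfl⟩
  | succ m ih =>
    obtain ⟨e, f, hf⟩ := ih
    refine ⟨((Equiv.sumCongr (Equiv.refl Unit) e).trans
      (Equiv.sumAssoc Unit (Fin m) (Vs t)).symm).trans (Equiv.sumCongr (E0 m) (Equiv.refl (Vs t))),
      ((Equiv.sumCongr (Equiv.refl (Fin k)) f).trans
      (Equiv.sumAssoc (Fin k) (Fin m × Fin k) (Hs t)).symm).trans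
        (Equiv.sumCongr (F0 m k) (Equiv.refl (Hs t))), ?_⟩
    rintro (a | h)
    · rfl
    · have h1 : ∀ x : (Fin m × Fin k) ⊕ Hs t,
          Sum.map (Prod.fst : Fin (m + 1) × Fin k → Fin (m + 1)) (nus t)
            (Equiv.sumCongr (F0 m k) (Equiv.refl (Hs t))
              ((Equiv.sumAssoc (Fin k) (Fin m × Fin k) (Hs t)).symm (Sum.inr x))) =
          Equiv.sumCongr (E0 m) (Equiv.refl (Vs t))
            ((Equiv.sumAssoc Unit (Fin m) (Vs t)).symm
              (Sum.inr (Sum.map (Prod.fst : Fin m × Fin k → Fin m) (nus t) x))) := by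
        rintro (⟨i, a⟩ | h)
        · rfl
        · rfl
      have h2 := h1 (f h)
      rw [hf h] at h2
      exact h2

theorem blk2 (d : List ℕ) : ∀ v : Vs d, Nat.card {h // nus d h = v} ∈ d := by
  induction d with
  | nil => intro v; exact Empty.elim v
  | cons k t ih =>
    rintro (u | v)
    · have h1 : Nat.card {h : Hs (k :: t) // nus (k :: t) h = Sum.inl u} = k := by
        refine Eq.trans (Eq.symm ?_) (Nat.card_fin k)
        refine Nat.card_eq_of_bijective
          (fun a : Fin k => (⟨Sum.inl a, rfl⟩ : {h : Hs (k :: t) // nus (k :: t) h = Sum.inl u}))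
          ⟨?_, ?_⟩
        · intro a b hab
          exact Sum.inl.inj (Subtype.mk.inj hab)
        · rintro ⟨h | h, hh⟩
          · exact ⟨h, rfl⟩
          · exact absurd hh (by simp [nus])
      exact List.mem_cons.2 (Or.inl h1)
    · have h1 : Nat.card {h : Hs (k :: t) // nus (k :: t) h = Sum.inr v} =
          Nat.card {h : Hs t // nus t h = v} := by
        symm
        refine Nat.card_eq_of_bijective
          (fun a : {h : Hs t // nus t h = v} => ⟨Sum.inr a.1, congrArg Sum.inr a.2⟩) ⟨?_, ?_⟩
        · intro a b hab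
          exact Subtype.ext (Sum.inr.inj (Subtype.mk.inj hab))
        · rintro ⟨h | h, hh⟩
          · exact absurd hh (by simp [nus])
          · exact ⟨⟨h, Sum.inr.inj hh⟩, rfl⟩
      refine List.mem_cons_of_mem k ?_
      have h2 := ih v
      rw [← h1] at h2
      exact h2

theorem blk : BlkStmt := ⟨fun m k t => blk1 k t m, blk2⟩

end Pool.Agent.UMG.B.H21
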