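import Pool.Agent.UMG.CStmts

/-!
Row UES: the recursion `unE` is a loop.
-/

set_option autoImplicit false

namespace Pool.Agent.UMG.C.H21

open Finset Pool.Agent.UMG Pool.Agent.UMG.C

theorem pick_eq (w : ℕ → ℕ) (n u : ℕ) : pick n w u = uidx w n u := by
  unfold pick uidx
  rw [Finset.card_filter]

theorem sE_shift (x : ℕ → ℕ) (l A : ℕ) (s : ℕ × ℕ × ℕ) (t : ℕ) :
    sE x l A s (t + 1) = sE x l A (stE x l A s) t := by
  induction t with
  | zero => rfl
  | succ t ih =>
    rw [sE, ih]
    rfl

theorem sE_zero (x : ℕ → ℕ) (l A W u : ℕ) (t : ℕ) : sE x l A (0, W, u) t = (0, W, u) := by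
  induction t with
  | zero => rfl
  | succ t ih =>
    rw [sE, ih]
    rfl

/-- the data of one step -/
theorem step (x : ℕ → ℕ) (l A k W u : ℕ) (hu : u < W * (Eint x l (k + 1) * A)) :
    ∃ i u', i ≤ k ∧ u' < (W * x (l * (i + 1))) * (Eint x l (k - i) * A) ∧
      stE x l A (k + 1, W, u) = (k - i, W * x (l * (i + 1)), u') ∧
      unE x l A (k + 1) W u = ((i + 1) :: (unE x l A (k - i) (W * x (l * (i + 1))) u').1,
        (unE x l A (k - i) (W * x (l * (i + 1))) u').2) := by
  set w : ℕ → ℕ := fun i => k.descFactorial i * vE x l A k W i with hw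
  set i := pick (k + 1) w u with hi
  have hc : W * (Eint x l (k + 1) * A) = ∑ j ∈ range (k + 1), w j := by
    rw [Eint, Finset.sum_mul, Finset.mul_sum]
    refine Finset.sum_congr rfl fun i _ => ?_
    simp only [hw, vE, Nat.cast_id]
    ring
  rw [hc] at hu
  obtain ⟨h1, h2, -⟩ := uidx_spec hu
  rw [← pick_eq, ← hi] at h1 h2
  have h3 : 0 < w i := lt_of_le_of_lt (Nat.zero_le _) h2
  have h4 : 0 < vE x l A k W i := Nat.pos_of_mul_pos_left h3
  refine ⟨i, (u - cum w i) % vE x l A k W i, by omega, Nat.mod_lt _ h4, rfl, ?_⟩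
  rw [unE]

theorem ues_aux (x : ℕ → ℕ) (l A k : ℕ) : ∀ W u T : ℕ, u < W * (Eint x l k * A) → k ≤ T →
    (unE x l A k W u).1 = (List.range T).flatMap (fun t =>
      if (sE x l A (k, W, u) t).1 = 0 then []
      else [(sE x l A (k, W, u) t).1 - (sE x l A (k, W, u) (t + 1)).1]) ∧
    (unE x l A k W u).2 = (sE x l A (k, W, u) T).2 := by
  induction k using Nat.strong_induction_on with
  | _ k ih =>
    intro W u T hu hT
    rcases k with _ | k
    · rw [unE, sE_zero]
      refine ⟨?_, rfl⟩
      symm
      rw [List.flatMap_eq_nil_iff]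
      intro t _
      rw [sE_zero]
      simp
    · obtain ⟨T', rfl⟩ : ∃ T', T = T' + 1 := ⟨T - 1, by omega⟩
      obtain ⟨i, u', hik, hu', hst, hun⟩ := step x l A k W u hu
      obtain ⟨e1, e2⟩ := ih (k - i) (by omega) (W * x (l * (i + 1))) u' T' hu' (by omega)
      rw [hun]
      constructor
      · rw [List.range_succ_eq_map, List.flatMap_cons, List.flatMap_map, e1]
        have h0 : (sE x l A (k + 1, W, u) 0).1 = k + 1 := rfl
        have h1 : (sE x l A (k + 1, W, u) (0 + 1)).1 = k - i := by
          rw [sE_shift, hst]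
          rfl
        rw [h0, h1, if_neg (Nat.succ_ne_zero k)]
        have h2 : k + 1 - (k - i) = i + 1 := by omega
        rw [h2, List.singleton_append]
        refine congrArg (List.cons (i + 1)) ?_
        refine congrArg (fun g => List.flatMap g (List.range T')) (funext fun t => ?_)
        have key : ∀ t, sE x l A (k + 1, W, u) (t + 1) =
            sE x l A (k - i, W * x (l * (i + 1)), u') t := fun t => by rw [sE_shift, hst]
        rw [Nat.succ_eq_add_one, key t, key (t + 1)]
      · rw [sE_shift, hst]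
        exact e2

theorem ues : UesStmt := by
  intro x l A k W u T hu hT
  exact ues_aux x l A k W u T hu hT

end Pool.Agent.UMG.C.H21
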