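import Pool.Agent.UMG.StmtsA

/-!
Row ADD: the calculus of `E`, sums of weights.
-/

set_option autoImplicit false

namespace Pool.Agent.UMG.H21

open Finset

variable {R : Type} [CommRing R] [Algebra ℚ R]

theorem E_zero (w : ℕ → R) : E w 0 = 1 := by
  rw [E]

theorem E_succ (w : ℕ → R) (n : ℕ) :
    ((n : R) + 1) * E w (n + 1) = ∑ i ∈ range (n + 1), w (i + 1) * E w (n - i) := by
  rw [E, mul_smul_comm]
  have h1 : ((n : R) + 1) = ((n : ℚ) + 1) • (1 : R) := by
    rw [add_smul, one_smul, Nat.cast_smul_eq_nsmul, nsmul_eq_mul, mul_one]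
  rw [h1, smul_mul_assoc, one_mul, smul_smul]
  have h2 : (1 : ℚ) / ((n : ℚ) + 1) * ((n : ℚ) + 1) = 1 := by
    have : ((n : ℚ) + 1) ≠ 0 := by positivity
    field_simp
  rw [h2, one_smul]

theorem E_unique (w S : ℕ → R) (h0 : S 0 = 1)
    (h : ∀ n : ℕ, ((n : R) + 1) * S (n + 1) = ∑ i ∈ range (n + 1), w (i + 1) * S (n - i))
    (n : ℕ) : S n = E w n := by
  induction n using Nat.strong_induction_on with
  | _ n ih =>
    rcases n with _ | n
    · rw [h0, E_zero]
    · have h1 : ((n : R) + 1) * S (n + 1) = ((n : R) + 1) * E w (n + 1) := by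
        rw [h, E_succ]
        refine Finset.sum_congr rfl fun i _ => ?_
        rw [ih (n - i) (by omega)]
      have h2 : ((1 : ℚ) / ((n : ℚ) + 1)) • (((n : R) + 1) * S (n + 1)) =
          ((1 : ℚ) / ((n : ℚ) + 1)) • (((n : R) + 1) * E w (n + 1)) := by rw [h1]
      have h3 : ∀ x : R, ((1 : ℚ) / ((n : ℚ) + 1)) • (((n : R) + 1) * x) = x := by
        intro x
        have h4 : ((n : R) + 1) = ((n : ℚ) + 1) • (1 : R) := by
          rw [add_smul, one_smul, Nat.cast_smul_eq_nsmul, nsmul_eq_mul, mul_one]
        rw [h4, smul_mul_assoc, one_mul, smul_smul]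
        have h5 : (1 : ℚ) / ((n : ℚ) + 1) * ((n : ℚ) + 1) = 1 := by
          have : ((n : ℚ) + 1) ≠ 0 := by positivity
          field_simp
        rw [h5, one_smul]
      rw [h3, h3] at h2
      exact h2

/-- the generating series -/
noncomputable def P (w : ℕ → R) : PowerSeries R := PowerSeries.mk (E w)

/-- the generating series of the weights, shifted -/
noncomputable def W (w : ℕ → R) : PowerSeries R := PowerSeries.mk (fun n => w (n + 1))

theorem deriv_P (w : ℕ → R) : PowerSeries.derivative R (P w) = W w * P w := by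
  ext n
  rw [PowerSeries.coeff_derivative, PowerSeries.coeff_mul,
    Finset.Nat.sum_antidiagonal_eq_sum_range_succ_mk]
  simp only [P, W, PowerSeries.coeff_mk]
  rw [mul_comm, E_succ]

theorem add : AddStmt := by
  intro R _ _ w w' n
  have key : ∀ n, PowerSeries.coeff n (P w * P w') = E (fun l => w l + w' l) n := by
    refine E_unique _ _ ?_ ?_
    · rw [PowerSeries.coeff_mul]
      simp [P, E_zero]
    · intro n
      have h1 : PowerSeries.derivative R (P w * P w') = (W fun l => w l + w' l) * (P w * P w') := by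
        rw [Derivation.leibniz, deriv_P, deriv_P]
        have : (W fun l => w l + w' l) = W w + W w' := by
          ext n
          simp [W]
        rw [this, smul_eq_mul, smul_eq_mul]
        ring
      have h2 := congrArg (PowerSeries.coeff n) h1
      rw [PowerSeries.coeff_derivative] at h2
      rw [mul_comm, h2, PowerSeries.coeff_mul, Finset.Nat.sum_antidiagonal_eq_sum_range_succ_mk]
      simp only [W, PowerSeries.coeff_mk]
  rw [← key, PowerSeries.coeff_mul, Finset.Nat.sum_antidiagonal_eq_sum_range_succ_mk]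
  simp only [P, PowerSeries.coeff_mk]

end Pool.Agent.UMG.H21
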