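import Pool.Agent.UMG.StmtsA

/-!
Row GWT: the total weight of the codes.
-/

set_option autoImplicit false

namespace Pool.Agent.UMG.H21

open Finset

section semi

variable {R : Type} [CommSemiring R]

theorem csum_mul (A : R) (k : ℕ) : ∀ g : List ℕ → R,
    csum k (fun p => A * g p) = A * csum k g := by
  induction k using Nat.strong_induction_on with
  | _ k ih =>
    intro g
    rcases k with _ | k
    · rw [csum, csum]
    · rw [csum, csum, Finset.mul_sum]
      refine Finset.sum_congr rfl fun i _ => ?_
      rw [ih (k - i) (by omega) (fun p => g ((i + 1) :: p))]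
      ring

theorem csum_prod (x : ℕ → R) (l k : ℕ) :
    csum k (fun p => (p.map (fun i => x (l * i))).prod) = Eint x l k := by
  induction k using Nat.strong_induction_on with
  | _ k ih =>
    rcases k with _ | k
    · rw [csum, Eint]
      simp
    · rw [csum, Eint]
      refine Finset.sum_congr rfl fun i _ => ?_
      have h1 : (fun p : List ℕ => (((i + 1) :: p).map (fun i => x (l * i))).prod) =
          fun p => x (l * (i + 1)) * (p.map (fun i => x (l * i))).prod := by
        funext p
        rw [List.map_cons, List.prod_cons]
      rw [h1, csum_mul, ih (k - i) (by omega)]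
      ring

theorem gsum_mul (A : R) (n : ℕ) : ∀ (d : List ℕ) (g : Code → R), d.length = n →
    gsum d (fun c => A * g c) = A * gsum d g := by
  induction n using Nat.strong_induction_on with
  | _ n ih =>
    intro d g hd
    rcases d with _ | ⟨k, t⟩
    · rw [gsum, gsum]
    · rw [gsum, gsum, Finset.mul_sum]
      refine Finset.sum_congr rfl fun i _ => ?_
      have h1 : (fun p : List ℕ => gsum (t.drop i) (fun c => A * g ((i + 1, p) :: c))) =
          fun p => A * gsum (t.drop i) (fun c => g ((i + 1, p) :: c)) := by
        funext p
        refine ih (t.drop i).length ?_ _ _ rfl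
        rw [← hd, List.length_drop, List.length_cons]
        omega
      rw [h1, csum_mul]
      ring

theorem bund_shift (x : ℕ → R) (c : Code) : ∀ v : ℕ,
    ((bund v c).map (fun b => x (bsz b))).prod = ((bund 0 c).map (fun b => x (bsz b))).prod := by
  induction c with
  | nil => intro v; rfl
  | cons a c ih =>
    intro v
    obtain ⟨l, p⟩ := a
    rw [bund, bund, List.map_append, List.map_append, List.prod_append, List.prod_append,
      ih (v + l), ih (0 + l), List.map_map, List.map_map]
    rfl

theorem wt_cons (x : ℕ → R) (l : ℕ) (p : List ℕ) (c : Code) :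
    wt x ((l, p) :: c) = (p.map (fun i => x (l * i))).prod * wt x c := by
  unfold wt
  rw [bund, List.map_append, List.prod_append, bund_shift x c (0 + l), List.map_map]
  rfl

theorem gwt_aux (x : ℕ → R) (n : ℕ) : ∀ d : List ℕ, d.length = n → gsum d (wt x) = Aint x d := by
  induction n using Nat.strong_induction_on with
  | _ n ih =>
    intro d hd
    rcases d with _ | ⟨k, t⟩
    · rw [gsum, Aint]
      rfl
    · rw [gsum, Aint]
      refine Finset.sum_congr rfl fun i _ => ?_
      have h1 : (fun p : List ℕ => gsum (t.drop i) (fun c => wt x ((i + 1, p) :: c))) =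
          fun p => Aint x (t.drop i) * (p.map (fun j => x ((i + 1) * j))).prod := by
        funext p
        have h2 : (fun c : Code => wt x ((i + 1, p) :: c)) =
            fun c => (p.map (fun j => x ((i + 1) * j))).prod * wt x c := by
          funext c
          rw [wt_cons]
        rw [h2, gsum_mul _ _ _ _ rfl, ih (t.drop i).length ?_ _ rfl, mul_comm]
        rw [← hd, List.length_drop, List.length_cons]
        omega
      rw [h1, csum_mul, csum_prod]
      ring

end semi

theorem gwt : GwtStmt := by
  intro R _ x d
  exact gwt_aux x d.length d rfl

end Pool.Agent.UMG.H21
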