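import Pool.Agent.UMG.StmtsD

/-!
Row MOD: residues.
-/

set_option autoImplicit false

namespace Pool.Agent.UMG.D.H21

open Finset

theorem mod : ModStmt := by
  intro m V Ψ
  induction m with
  | zero => simp
  | succ m ih =>
    rw [Nat.succ_mul, Finset.sum_range_add, ih, Nat.succ_mul]
    congr 1
    refine Finset.sum_congr rfl fun z hz => ?_
    rw [Nat.mul_add_mod_of_lt (Finset.mem_range.1 hz)]

end Pool.Agent.UMG.D.H21
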