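import Pool.Agent.UMG.StmtsA
import Pool.Agent.Helper21_UMG.ADD

/-!
Row SCL: the calculus of `E`, scaling.
-/

set_option autoImplicit false

namespace Pool.Agent.UMG.H21

open Finset

theorem scl : SclStmt := by
  intro c w n
  symm
  refine E_unique (fun l => c ^ l * w l) (fun n => c ^ n * E w n) ?_ ?_ n
  · simp [E_zero]
  · intro n
    have h1 := E_succ w n
    have h2 : ((n : ℝ) + 1) * (c ^ (n + 1) * E w (n + 1)) =
        c ^ (n + 1) * (((n : ℝ) + 1) * E w (n + 1)) := by ring
    rw [h2, h1, Finset.mul_sum]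
    refine Finset.sum_congr rfl fun i hi => ?_
    have h3 : i ≤ n := Nat.lt_succ_iff.1 (Finset.mem_range.1 hi)
    have h4 : n + 1 = (i + 1) + (n - i) := by omega
    rw [h4, pow_add]
    have h5 : i + 1 + (n - i) - 1 = n := by omega
    ring

end Pool.Agent.UMG.H21
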