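import Pool.Agent.UMG.StmtsA
import Pool.Agent.Helper21_UMG.ADD

/-!
Row SHI: the calculus of `E`, shift.
-/

set_option autoImplicit false

namespace Pool.Agent.UMG.H21

open Finset

theorem E_nonneg {w : ℕ → ℝ} (hw : ∀ l, 0 ≤ w l) (n : ℕ) : 0 ≤ E w n := by
  induction n using Nat.strong_induction_on with
  | _ n ih =>
    rcases n with _ | n
    · rw [E_zero]
      norm_num
    · have h1 := E_succ w n
      have h2 : 0 ≤ ∑ i ∈ range (n + 1), w (i + 1) * E w (n - i) :=
        Finset.sum_nonneg fun i _ => mul_nonneg (hw _) (ih _ (by omega))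
      rw [← h1] at h2
      have h3 : (0 : ℝ) < (n : ℝ) + 1 := by positivity
      exact nonneg_of_mul_nonneg_right h2 h3

theorem E_step {w : ℕ → ℝ} (hw : ∀ l, 0 ≤ w l) (n : ℕ) :
    w 1 * E w n ≤ ((n : ℝ) + 1) * E w (n + 1) := by
  rw [E_succ]
  have h := Finset.single_le_sum (s := range (n + 1)) (f := fun i => w (i + 1) * E w (n - i))
    (fun i _ => mul_nonneg (hw _) (E_nonneg hw _)) (Finset.mem_range.2 (Nat.succ_pos n))
  simpa using h

theorem shi : ShiStmt := by
  intro w n r hw hr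
  induction r with
  | zero => simp
  | succ r ih =>
    have h1 := ih (by omega)
    obtain ⟨m, hm⟩ : ∃ m, n - r = m + 1 := ⟨n - r - 1, by omega⟩
    have h2 : n - (r + 1) = m := by omega
    rw [hm] at h1
    rw [h2]
    have h3 := E_step hw m
    have h4 : ((m : ℝ) + 1) ≤ n := by
      have : m + 1 ≤ n := by omega
      exact_mod_cast this
    have h5 : ((m : ℝ) + 1) * E w (m + 1) ≤ n * E w (m + 1) :=
      mul_le_mul_of_nonneg_right h4 (E_nonneg hw _)
    calc w 1 ^ (r + 1) * E w m = w 1 ^ r * (w 1 * E w m) := by ring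
      _ ≤ w 1 ^ r * (n * E w (m + 1)) :=
        mul_le_mul_of_nonneg_left (h3.trans h5) (pow_nonneg (hw 1) r)
      _ = n * (w 1 ^ r * E w (m + 1)) := by ring
      _ ≤ n * ((n : ℝ) ^ r * E w n) := mul_le_mul_of_nonneg_left h1 (Nat.cast_nonneg n)
      _ = (n : ℝ) ^ (r + 1) * E w n := by ring

end Pool.Agent.UMG.H21
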