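import Pool.Agent.UMG.StmtsD

/-!
Row UNE: unranking of the cycles.
-/

set_option autoImplicit false

namespace Pool.Agent.UMG.D.H21

open Finset

theorem une (hP : PckStmt) (hM : ModStmt) : UneStmt := by
  intro x l A k
  induction k using Nat.strong_induction_on with
  | _ k ih =>
    intro W Ψ
    rcases k with _ | k
    · rw [Eint, csum]
      simp only [unE, one_mul, List.map_nil, List.prod_nil, mul_one]
    · set w : ℕ → ℕ := fun i => k.descFactorial i * vE x l A k W i with hw
      have hc : W * (Eint x l (k + 1) * A) = cum w (k + 1) := by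
        rw [Eint, cum, Finset.sum_mul, Finset.mul_sum]
        refine Finset.sum_congr rfl fun i _ => ?_
        simp only [hw, vE, Nat.cast_id]
        ring
      set Φ : ℕ → ℕ → ℕ := fun i z =>
        Ψ ((i + 1) :: (unE x l A (k - i) (W * x (l * (i + 1))) (z % vE x l A k W i)).1)
          (unE x l A (k - i) (W * x (l * (i + 1))) (z % vE x l A k W i)).2.1
          (unE x l A (k - i) (W * x (l * (i + 1))) (z % vE x l A k W i)).2.2 with hΦ
      have h1 : ∀ u, Ψ (unE x l A (k + 1) W u).1 (unE x l A (k + 1) W u).2.1
          (unE x l A (k + 1) W u).2.2 = Φ (pick (k + 1) w u) (u - cum w (pick (k + 1) w u)) := by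
        intro u
        rw [unE]
      rw [Finset.sum_congr rfl fun u _ => h1 u, hc, hP, csum]
      refine Finset.sum_congr rfl fun i _ => ?_
      have h2 := hM (k.descFactorial i) (vE x l A k W i) (fun z =>
        Ψ ((i + 1) :: (unE x l A (k - i) (W * x (l * (i + 1))) z).1)
          (unE x l A (k - i) (W * x (l * (i + 1))) z).2.1
          (unE x l A (k - i) (W * x (l * (i + 1))) z).2.2)
      have h3 := ih (k - i) (by omega) (W * x (l * (i + 1))) (fun p => Ψ ((i + 1) :: p))
      have h4 : ∑ z ∈ range (w i), Φ i z = k.descFactorial i * ∑ z ∈ range (vE x l A k W i),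
          Ψ ((i + 1) :: (unE x l A (k - i) (W * x (l * (i + 1))) z).1)
          (unE x l A (k - i) (W * x (l * (i + 1))) z).2.1
          (unE x l A (k - i) (W * x (l * (i + 1))) z).2.2 := h2
      have h5 : ∑ z ∈ range (vE x l A k W i),
          Ψ ((i + 1) :: (unE x l A (k - i) (W * x (l * (i + 1))) z).1)
          (unE x l A (k - i) (W * x (l * (i + 1))) z).2.1
          (unE x l A (k - i) (W * x (l * (i + 1))) z).2.2 =
          csum (k - i) (fun p => ∑ z ∈ range (W * x (l * (i + 1)) *
            (p.map (fun i => x (l * i))).prod * A),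
            Ψ ((i + 1) :: p) (W * x (l * (i + 1)) * (p.map (fun i => x (l * i))).prod) z) := h3
      rw [h4, h5, Nat.cast_id]
      congr 1
      refine congrArg (csum (k - i)) (funext fun p => ?_)
      rw [List.map_cons, List.prod_cons, ← mul_assoc W]

end Pool.Agent.UMG.D.H21
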